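import Pool.Agent.Helper82.EC2.AllA

/-!
# MP_47b98d_co : a lower bound for the average degree of critical multigraphs, for all multiplicities
-/

set_option autoImplicit false

open Pool.Agent.Helper82.EC Pool.Agent.Helper82.EC2

namespace Pool.Agent.Results.MP_47b98d_co.AllMultiplicities

/-- Every `Δ`-critical multigraph with `Δ ≥ 2` and multiplicity `μ` has average degree at least
`2 Δ (Δ + 1) / (3 Δ + μ)`. -/
theorem result {V E : Type} [Fintype V] [Fintype E] (G : MGraph V E) (hG : G.IsDeltaCritical)
    (hD : 2 ≤ G.maxDeg) :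
    2 * (G.maxDeg : ℝ) * ((G.maxDeg : ℝ) + 1) / (3 * G.maxDeg + G.multiplicity) ≤ G.avgDeg :=
  final_all Pool.Agent.Helper82.EC.all_Fan all_Sum2 all_NA G hG hD

end Pool.Agent.Results.MP_47b98d_co.AllMultiplicities
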