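import Pool.Agent.Helper82.EC2.AllE

/-!
# MP_47b98d_co : the average degree of critical multigraphs without vertices in a window of small
degrees
-/

set_option autoImplicit false

open Pool.Agent.Helper82.EC Pool.Agent.Helper82.EC2

namespace Pool.Agent.Results.MP_47b98d_co.DegreeWindow

/-- Every `Δ`-critical multigraph with `Δ ≥ 2` and multiplicity `μ`, all of whose vertices `v` have
`3 deg v ≥ Δ + 1` or `4 deg v ≥ 9 μ` or `deg v (μ + 2) ≤ Δ`, has average degree at least
`(2 Δ + 2) / 3`. -/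
theorem result {V E : Type} [Fintype V] [Fintype E] (G : MGraph V E) (hG : G.IsDeltaCritical)
    (hD : 2 ≤ G.maxDeg)
    (hdeg : ∀ v : V, G.maxDeg + 1 ≤ 3 * G.deg v ∨ 9 * G.multiplicity ≤ 4 * G.deg v ∨
      G.deg v * (G.multiplicity + 2) ≤ G.maxDeg) :
    (2 * (G.maxDeg : ℝ) + 2) / 3 ≤ G.avgDeg :=
  final_window Pool.Agent.Helper82.EC.all_Fan all_Sum2 all_NH all_NL2 G hG hD hdeg

end Pool.Agent.Results.MP_47b98d_co.DegreeWindow
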