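import Pool.Agent.Helper82.EC3.All3

/-!
# MP_47b98d_co : the average degree of critical multigraphs of multiplicity at most `Δ / 20`
-/

set_option autoImplicit false

open Pool.Agent.Helper82.EC

namespace Pool.Agent.Results.MP_47b98d_co.LinearRange

/-- Every `Δ`-critical multigraph with multiplicity at most `Δ / 20`, `Δ ≥ 2`, has average degree at
least `(2 Δ + 2) / 3`. -/
theorem result {V E : Type} [Fintype V] [Fintype E] (G : MGraph V E) (hG : G.IsDeltaCritical)
    (hD : 2 ≤ G.maxDeg) (hμ : 20 * G.multiplicity ≤ G.maxDeg) :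
    (2 * (G.maxDeg : ℝ) + 2) / 3 ≤ G.avgDeg :=
  Pool.Agent.Helper82.EC3.all_lin G hG hD hμ

end Pool.Agent.Results.MP_47b98d_co.LinearRange
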