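import Pool.Agent.Helper82.EC.All
import Pool.Agent.Helper82.EC.M_FIA2
import Pool.Agent.Helper82.EC.Crit2

/-!
# MP_47b98d_co : the average degree of critical multigraphs of small multiplicity
-/

set_option autoImplicit false

open Pool.Agent.Helper82.EC

namespace Pool.Agent.Results.MP_47b98d_co.SmallMultiplicity

/-- Every `Δ`-critical multigraph with `Δ ≥ 9` and multiplicity `μ`, where
`25 (2 μ + 1) ^ 2 ≤ 64 (Δ + 1)` (for instance every one with `μ ≤ 2`), has average degree at least
`(2 Δ + 2) / 3`. -/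
theorem result {V E : Type} [Fintype V] [Fintype E] (G : MGraph V E) (hG : G.IsDeltaCritical)
    (hD : 9 ≤ G.maxDeg)
    (hμ : 25 * (2 * G.multiplicity + 1) ^ 2 ≤ 64 * (G.maxDeg + 1)) :
    (2 * (G.maxDeg : ℝ) + 2) / 3 ≤ G.avgDeg :=
  final_exact2 all_Fan all_Sum stFIA2 G hG hD hμ

end Pool.Agent.Results.MP_47b98d_co.SmallMultiplicity
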